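import Mathlib

/-!
Every universal BPBp-RSE domain is a universal BPBp-ASE domain.

Idea: given `T : X → Z` of norm one, approximate the monomorphism `(T, I/2) : X → Z × X`
(sup norm) by a range strongly exposing operator `S`; it is bounded below, so it is absolutely
strongly exposing, and its first coordinate is the required approximant of `T`.
-/

open Filter Topology

namespace Pool.Agent.Results.MP_2e9c83_an.UniversalDomain

universe u v

section Defs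

variable {𝕜 : Type} [RCLike 𝕜]
variable {X : Type*} [NormedAddCommGroup X] [NormedSpace 𝕜 X]
variable {Y : Type*} [NormedAddCommGroup Y] [NormedSpace 𝕜 Y]

/-- `T` is absolutely strongly exposing. -/
def IsASE (T : X →L[𝕜] Y) : Prop :=
  ∃ x₀ : X, ‖x₀‖ = 1 ∧ ∀ x : ℕ → X, (∀ n, ‖x n‖ ≤ 1) →
    Tendsto (fun n => ‖T (x n)‖) atTop (𝓝 ‖T‖) →
      ∃ σ : ℕ → ℕ, StrictMono σ ∧ ∃ c : 𝕜, ‖c‖ = 1 ∧
        Tendsto (fun n => x (σ n)) atTop (𝓝 (c • x₀))

/-- `T` is range strongly exposing. -/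
def IsRSE (T : X →L[𝕜] Y) : Prop :=
  ∃ x₀ : X, ‖x₀‖ = 1 ∧ ∀ x : ℕ → X, (∀ n, ‖x n‖ ≤ 1) →
    Tendsto (fun n => ‖T (x n)‖) atTop (𝓝 ‖T‖) →
      ∃ σ : ℕ → ℕ, StrictMono σ ∧ ∃ c : 𝕜, ‖c‖ = 1 ∧
        Tendsto (fun n => T (x (σ n))) atTop (𝓝 (c • T x₀))

/-- The Bishop-Phelps-Bollobás property of the pair `(X, Y)` with approximating operators
taken in the class `A`. -/
def BPBp (A : (X →L[𝕜] Y) → Prop) : Prop :=
  ∀ ε : ℝ, 0 < ε → ∃ η : ℝ, 0 < η ∧ η < ε ∧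
    ∀ (T : X →L[𝕜] Y) (x : X), ‖T‖ = 1 → ‖x‖ = 1 → 1 - η < ‖T x‖ →
      ∃ (S : X →L[𝕜] Y) (x₀ : X), A S ∧ ‖x₀‖ = 1 ∧ ‖S‖ = 1 ∧ ‖S x₀‖ = 1 ∧
        ‖S - T‖ < ε ∧ ‖x - x₀‖ < ε

end Defs

section Proof

variable {𝕜 : Type} [RCLike 𝕜]
variable {X : Type*} [NormedAddCommGroup X] [NormedSpace 𝕜 X]
variable {Z : Type*} [NormedAddCommGroup Z] [NormedSpace 𝕜 Z]

theorem key (h : BPBp (IsRSE : (X →L[𝕜] (Z × X)) → Prop)) :
    BPBp (IsASE : (X →L[𝕜] Z) → Prop) := by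
  intro ε hε
  obtain ⟨η, hη0, hηε, H⟩ := h (min ε (1 / 4)) (lt_min hε (by norm_num))
  refine ⟨η, hη0, hηε.trans_le (min_le_left _ _), ?_⟩
  intro T x hT hx hTx
  have hhalf : ‖(2⁻¹ : 𝕜)‖ = 2⁻¹ := by simp
  set J : X →L[𝕜] X := (2⁻¹ : 𝕜) • ContinuousLinearMap.id 𝕜 X with hJ
  have hJapp : ∀ y : X, ‖J y‖ = 2⁻¹ * ‖y‖ := by
    intro y
    simp [hJ, norm_smul]
  have hJn : ‖J‖ ≤ 1 := by
    refine ContinuousLinearMap.opNorm_le_bound _ zero_le_one fun y => ?_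
    rw [hJapp]
    have := norm_nonneg y
    linarith
  have hT' : ‖T.prod J‖ = 1 := by
    rw [ContinuousLinearMap.opNorm_prod, Prod.norm_def]
    simp only [hT]
    exact max_eq_left hJn
  have hTx' : 1 - η < ‖(T.prod J) x‖ := by
    refine hTx.trans_le ?_
    rw [ContinuousLinearMap.prod_apply, Prod.norm_def]
    exact le_max_left _ _
  obtain ⟨S, x₀, hS, hx₀, hSn, hSx₀, hST, hxx₀⟩ := H (T.prod J) x hT' hx hTx'
  have hST4 : ‖S - T.prod J‖ < 1 / 4 := hST.trans_le (min_le_right _ _)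
  have hSTε : ‖S - T.prod J‖ < ε := hST.trans_le (min_le_left _ _)
  -- the second coordinate of `S` is close to half the identity
  have hsnd : ∀ y : X, ‖(S y).2 - J y‖ ≤ 1 / 4 * ‖y‖ := by
    intro y
    have h1 : (S y).2 - J y = ((S - T.prod J) y).2 := by simp
    rw [h1]
    refine (norm_snd_le _).trans (((S - T.prod J).le_opNorm y).trans ?_)
    exact mul_le_mul_of_nonneg_right hST4.le (norm_nonneg _)
  have hlow : ∀ y : X, ‖y‖ ≤ 4 * ‖S y‖ := by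
    intro y
    have h1 := hsnd y
    have h2 := hJapp y
    have h3 : ‖J y‖ ≤ ‖(S y).2‖ + ‖(S y).2 - J y‖ := by
      have := norm_sub_le (S y).2 ((S y).2 - J y)
      simpa using this
    have h4 : ‖(S y).2‖ ≤ ‖S y‖ := norm_snd_le _
    linarith
  have hup : ∀ y : X, ‖(S y).2‖ ≤ 3 / 4 * ‖y‖ := by
    intro y
    have h1 := hsnd y
    have h2 := hJapp y
    have h3 : ‖(S y).2‖ ≤ ‖(S y).2 - J y‖ + ‖J y‖ := by
      have := norm_add_le ((S y).2 - J y) (J y)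
      simpa using this
    linarith
  set S₁ : X →L[𝕜] Z := (ContinuousLinearMap.fst 𝕜 Z X).comp S with hS₁
  have hS₁app : ∀ y : X, S₁ y = (S y).1 := fun y => rfl
  have hS₁x₀ : ‖S₁ x₀‖ = 1 := by
    have h1 := hup x₀
    rw [hx₀] at h1
    rw [Prod.norm_def] at hSx₀
    rw [hS₁app]
    rcases max_cases ‖(S x₀).1‖ ‖(S x₀).2‖ with h2 | h2
    · linarith [h2.1]
    · linarith [h2.1]
  have hS₁le : ∀ y : X, ‖S₁ y‖ ≤ ‖S y‖ := fun y => norm_fst_le _
  have hSle : ∀ y : X, ‖S y‖ ≤ ‖y‖ := by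
    intro y
    have := S.le_opNorm y
    rwa [hSn, one_mul] at this
  have hS₁n : ‖S₁‖ = 1 := by
    apply le_antisymm
    · refine ContinuousLinearMap.opNorm_le_bound _ zero_le_one fun y => ?_
      rw [one_mul]
      exact (hS₁le y).trans (hSle y)
    · have := S₁.le_opNorm x₀
      rwa [hS₁x₀, hx₀, mul_one] at this
  refine ⟨S₁, x₀, ?_, hx₀, hS₁n, hS₁x₀, ?_, hxx₀.trans_le (min_le_left _ _)⟩
  · obtain ⟨y₀, hy₀, hR⟩ := hS
    refine ⟨y₀, hy₀, fun y hy hlim => ?_⟩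
    have hlim' : Tendsto (fun n => ‖S (y n)‖) atTop (𝓝 ‖S‖) := by
      rw [hSn]
      rw [hS₁n] at hlim
      exact tendsto_of_tendsto_of_tendsto_of_le_of_le hlim tendsto_const_nhds
        (fun n => hS₁le _) (fun n => (hSle _).trans (hy n))
    obtain ⟨σ, hσ, c, hc, hconv⟩ := hR y hy hlim'
    refine ⟨σ, hσ, c, hc, ?_⟩
    rw [tendsto_iff_norm_sub_tendsto_zero] at hconv ⊢
    have h4 : Tendsto (fun n => 4 * ‖S (y (σ n)) - c • S y₀‖) atTop (𝓝 0) := by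
      simpa using hconv.const_mul 4
    refine squeeze_zero (fun n => norm_nonneg _) (fun n => ?_) h4
    have := hlow (y (σ n) - c • y₀)
    simpa [map_sub, map_smul] using this
  · refine lt_of_le_of_lt ?_ hSTε
    refine ContinuousLinearMap.opNorm_le_bound _ (norm_nonneg _) fun y => ?_
    have h1 : (S₁ - T) y = ((S - T.prod J) y).1 := by simp [hS₁app]
    rw [h1]
    exact (norm_fst_le _).trans ((S - T.prod J).le_opNorm y)

end Proof

/-- Over `ℝ` or `ℂ`: if `(X, Z)` has the BPBp-RSE for every Banach space `Z`, then `(X, Z)` has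
the BPBp-ASE for every Banach space `Z`. -/
theorem result (𝕜 : Type) [RCLike 𝕜]
    (X : Type u) [NormedAddCommGroup X] [NormedSpace 𝕜 X] [CompleteSpace X]
    (hX : ∀ (Z : Type (max u v)) [NormedAddCommGroup Z] [NormedSpace 𝕜 Z] [CompleteSpace Z],
      BPBp (IsRSE : (X →L[𝕜] Z) → Prop)) :
    ∀ (Z : Type (max u v)) [NormedAddCommGroup Z] [NormedSpace 𝕜 Z] [CompleteSpace Z],
      BPBp (IsASE : (X →L[𝕜] Z) → Prop) := by
  intro Z _ _ _
  exact key (hX (Z × X))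

end Pool.Agent.Results.MP_2e9c83_an.UniversalDomain
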